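import Pool.Agent.Lib.MP_04ab3e_co.X.Both

namespace Pool.Agent.Results.MP_04ab3e_co.Exact

open Pool.Agent.Lib.MP_04ab3e_co

/-- Every antidirected-connected finite digraph with at least `k + 1` vertices and minimum
semidegree greater than `k / 2` contains every antidirected path of length `k`: for each choice `o`
of alternating directions of the `k` edges there is a copy of the path with these directions. -/
theorem result (k : ℕ) (_hk : 1 ≤ k) (V : Type) [Fintype V] (D : Digraph V)
    (hloop : ∀ v, ¬ D.Adj v v) (hconn : AntiConnected D) (hn : k + 1 ≤ Fintype.card V)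
    (hdeg : ∀ v, k < 2 * {w | D.Adj v w}.ncard ∧ k < 2 * {w | D.Adj w v}.ncard)
    (o : Fin k → Bool) (ho : ∀ i j : Fin k, (j : ℕ) = i + 1 → o j ≠ o i) :
    ∃ p : Fin (k + 1) → V, Function.Injective p ∧
      ∀ i : Fin k, (o i = true → D.Adj (p i.castSucc) (p i.succ)) ∧
        (o i = false → D.Adj (p i.succ) (p i.castSucc)) :=
  X.exact_both k D hloop hconn hn hdeg o ho

end Pool.Agent.Results.MP_04ab3e_co.Exact
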